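import Pool.Agent.Lib.SmN.H.Coc

/-!
Project SMITH, block H, H2: minimality and the functions `Phi_R`.
-/

set_option autoImplicit false

open Finset

namespace Pool.Agent.SmN

section

variable {G V V1 Pl I : Type*} [Group G] [AddCommGroup V] [DistribMulAction G V] [DecidableEq I]
  [AddCommGroup V1] [Module (ZMod 2) V1]

/-- Powers of two add up. -/
theorem pow_smul_smul (a b : ℕ) (x : V) : (2 : ℕ) ^ a • ((2 : ℕ) ^ b • x) = (2 : ℕ) ^ (a + b) • x := by
  rw [← mul_nsmul', pow_add]

/-- Family killed by `2^j`: also by higher powers. -/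
theorem lev_le {j a : ℕ} (h : j ≤ a) {x : V} (hx : (2 : ℕ) ^ j • x = 0) : (2 : ℕ) ^ a • x = 0 := by
  obtain ⟨c, rfl⟩ := Nat.exists_eq_add_of_le h
  rw [add_comm, ← pow_smul_smul, hx, smul_zero]

omit [Group G] [DistribMulAction G V] in
/-- (m1) for all faces with directions outside `σ` in the region `W` gives vanishing for all larger
indices. -/
theorem mn_pow {W σ : Finset I} {j : ℕ} {Psi : Finset I → G → V}
    (hlev : ∀ P, P ⊆ W → ∀ s, (2 : ℕ) ^ j • Psi P s = 0)
    (hm : ∀ U P, U ⊆ W → P ⊆ W → Disjoint U P → Disjoint U σ → U.Nonempty → U.card ≤ j →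
      Mn j Psi U P)
    {U P : Finset I} (hU : U ⊆ W) (hP : P ⊆ W) (hUP : Disjoint U P) (hσ : Disjoint U σ) {a : ℕ}
    (ha : j ≤ U.card + a) (s : G) : alt U (fun T => (2 : ℕ) ^ a • Psi T s) P = 0 := by
  by_cases hja : j ≤ a
  · have : alt U (fun T => (2 : ℕ) ^ a • Psi T s) P = alt U (fun _ => (0 : V)) P := by
      apply alt_congr
      intro T hT
      exact lev_le hja (hlev _ (Finset.union_subset hP (hT.trans hU)) s)
    rw [this, alt_zero]
  · push Not at hja
    -- a subset with exactly `j - a` elements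
    obtain ⟨U', hU'U, hU'c⟩ := Finset.exists_subset_card_eq (s := U) (n := j - a) (by omega)
    apply alt_eq_zero_of_subset hU'U
    intro T hT
    have hTU : T ⊆ U := hT.trans Finset.sdiff_subset
    have h1 : Disjoint U' (P ∪ T) := by
      rw [Finset.disjoint_union_right]
      refine ⟨hUP.mono_left hU'U, ?_⟩
      rw [Finset.disjoint_left]
      intro x hx hxT
      exact (Finset.mem_sdiff.1 (hT hxT)).2 hx
    have h2 := hm U' (P ∪ T) (hU'U.trans hU) (Finset.union_subset hP (hTU.trans hU)) h1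
      (hσ.mono_left hU'U) (Finset.card_pos.1 (by omega)) (by omega) s
    have h3 : j - U'.card = a := by omega
    rwa [h3] at h2

omit [Group G] [DistribMulAction G V] in
/-- (m1) for all faces gives (*) for all faces. -/
theorem star_of_min {W σ : Finset I} {j : ℕ} {Psi : Finset I → G → V} (hσ : σ.card ≤ 1)
    (hlev : ∀ P, P ⊆ W → ∀ s, (2 : ℕ) ^ j • Psi P s = 0)
    (hm : ∀ U P, U ⊆ W → P ⊆ W → Disjoint U P → Disjoint U σ → U.Nonempty → U.card ≤ j →
      Mn j Psi U P) : Star W j Psi := by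
  intro U P hU hP hUP a ha s
  have h0 : U \ σ ⊆ U := Finset.sdiff_subset
  apply alt_eq_zero_of_subset h0
  intro T hT
  have hTU : T ⊆ U := hT.trans Finset.sdiff_subset
  have hc : U.card ≤ (U \ σ).card + 1 := by
    have := Finset.le_card_sdiff σ U
    omega
  apply mn_pow hlev hm (h0.trans hU) (Finset.union_subset hP (hTU.trans hU)) ?_
    (Finset.sdiff_disjoint) (by omega)
  rw [Finset.disjoint_union_right]
  refine ⟨hUP.mono_left h0, ?_⟩
  rw [Finset.disjoint_left]
  intro x hx hxT
  exact (Finset.mem_sdiff.1 (hT hxT)).2 hx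

omit [Group G] [DistribMulAction G V] in
/-- The level condition is part of (*). -/
theorem Star.lev {W : Finset I} {j : ℕ} {Psi : Finset I → G → V} (h : Star W j Psi)
    {P : Finset I} (hP : P ⊆ W) (s : G) : (2 : ℕ) ^ (j + 1) • Psi P s = 0 := by
  have := h ∅ P (Finset.empty_subset _) hP (Finset.disjoint_empty_left _) (j + 1) (by simp) s
  simpa using this

omit [Group G] [DistribMulAction G V] in
theorem Star.mono {W W' : Finset I} (hW : W' ⊆ W) {j : ℕ} {Psi : Finset I → G → V}
    (h : Star W j Psi) : Star W' j Psi :=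
  fun U P hU hP hUP a ha s => h U P (hU.trans hW) (hP.trans hW) hUP a ha s

variable {S : Sys G V V1 Pl}

/-- `Phi_R` at the position `∅`. -/
theorem iota_phiC (hS : S.Ok) {W : Finset I} {j : ℕ} {Psi : Finset I → G → V} (h : Star W j Psi)
    {R : Finset I} (hR : R ⊆ W) (hj : R.card ≤ j) (s : G) :
    S.iota (PhiC S j Psi R s) = alt R (fun T => (2 : ℕ) ^ (j - R.card) • Psi T s) ∅ := by
  unfold PhiC
  apply Sys.iota_un hS
  rw [← alt_nsmul]
  have := h R ∅ hR (Finset.empty_subset _) (Finset.disjoint_empty_right _) (j - R.card + 1)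
    (by omega) s
  rw [← this]
  congr 1
  funext T
  rw [smul_smul, ← pow_succ']

/-- `Phi_R` does not depend on the position of the face. -/
theorem iota_phiC_pos (hS : S.Ok) {W : Finset I} {j : ℕ} {Psi : Finset I → G → V}
    (h : Star W j Psi) {R P : Finset I} (hR : R ⊆ W) (hP : P ⊆ W) (hRP : Disjoint R P)
    (hj : R.card ≤ j) (s : G) :
    S.iota (PhiC S j Psi R s) = alt R (fun T => (2 : ℕ) ^ (j - R.card) • Psi T s) P := by
  induction P using Finset.induction_on with
  | empty => exact iota_phiC hS h hR hj s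
  | insert i P hi ih =>
    have hiR : i ∉ R := fun hc => (Finset.disjoint_left.1 hRP) hc (Finset.mem_insert_self i P)
    have hPW : P ⊆ W := (Finset.subset_insert i P).trans hP
    have h1 := ih hPW (hRP.mono_right (Finset.subset_insert i P))
    have hiW : i ∈ W := hP (Finset.mem_insert_self i P)
    have h2 := h (insert i R) P (Finset.insert_subset hiW hR) hPW (by
      rw [Finset.disjoint_insert_left]
      exact ⟨hi, hRP.mono_right (Finset.subset_insert i P)⟩) (j - R.card) (by
      rw [Finset.card_insert_of_notMem hiR]; omega) s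
    rw [alt_insert hiR, sub_eq_zero] at h2
    rw [h1, h2]

/-- If the face has alternating sum zero then `Phi_R = 0`. -/
theorem phiC_of_mn (hS : S.Ok) {j : ℕ} {Psi : Finset I → G → V} {R : Finset I}
    (h : Mn j Psi R ∅) (s : G) : PhiC S j Psi R s = 0 := by
  unfold PhiC
  rw [h s]
  exact Sys.un_zero hS

theorem phiC_empty (hS : S.Ok) {j : ℕ} {Psi : Finset I → G → V}
    (hlev : ∀ s, (2 : ℕ) ^ j • Psi ∅ s = 0) (s : G) : PhiC S j Psi ∅ s = 0 := by
  unfold PhiC
  simp only [alt_empty, Finset.card_empty, Nat.sub_zero, hlev s]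
  exact Sys.un_zero hS

/-- Values at an element where the family is constant. -/
theorem phiC_sg (hS : S.Ok) {j : ℕ} {Psi : Finset I → G → V} {R : Finset I} (hR : R.Nonempty)
    {s : G} {c : V} (hc : ∀ T, T ⊆ R → Psi T s = c) : PhiC S j Psi R s = 0 := by
  unfold PhiC
  have : alt R (fun T => (2 : ℕ) ^ (j - R.card) • Psi T s) ∅ =
      alt R (fun _ => (2 : ℕ) ^ (j - R.card) • c) ∅ := by
    apply alt_congr
    intro T hT
    rw [Finset.empty_union, hc T hT]
  rw [this, alt_const hR]
  exact Sys.un_zero hS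

theorem iota_smul (S : Sys G V V1 Pl) (a : ZMod 2) (w : V1) : S.iota (a • w) = a.val • S.iota w := by
  rcases (by revert a; decide : a = 0 ∨ a = 1) with rfl | rfl
  · simp
  · rw [one_smul, show (1 : ZMod 2).val = 1 from rfl, one_smul]

/-- 2-finiteness of finite families. -/
theorem tf_family (hS : S.Ok) {α : Type*} {J : Type*} (s : Finset J) (f : J → G → α)
    (hf : ∀ i ∈ s, S.TF (f i)) : ∃ N ∈ S.NN, ∀ i ∈ s, ∀ g, ∀ n ∈ N, f i (g * n) = f i g := by
  classical
  induction s using Finset.induction_on with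
  | empty => exact ⟨⊤, hS.top_mem, by simp⟩
  | insert i s hi ih =>
    obtain ⟨N, hN, h1⟩ := ih (fun k hk => hf k (Finset.mem_insert_of_mem hk))
    obtain ⟨N', hN', h2⟩ := hf i (Finset.mem_insert_self i s)
    refine ⟨N ⊓ N', hS.inf_mem N hN N' hN', ?_⟩
    intro k hk g n hn
    rcases Finset.mem_insert.1 hk with rfl | hk
    · exact h2 g n hn.2
    · exact h1 k hk g n hn.1

theorem tf_alt (hS : S.Ok) {M : Type*} [AddCommGroup M] (U P : Finset I) (f : Finset I → G → M)
    (hf : ∀ T, T ⊆ U → S.TF (f (P ∪ T))) : S.TF (fun s => alt U (fun T => f T s) P) := by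
  obtain ⟨N, hN, h⟩ := tf_family hS U.powerset (fun T => f (P ∪ T))
    (fun T hT => hf T (Finset.mem_powerset.1 hT))
  refine ⟨N, hN, fun s n hn => ?_⟩
  apply alt_congr
  intro T hT
  exact h T (Finset.mem_powerset.2 hT) s n hn

theorem phiC_tf (hS : S.Ok) {j : ℕ} {Psi : Finset I → G → V} {R : Finset I}
    (hf : ∀ T, T ⊆ R → S.TF (Psi T)) : S.TF (PhiC S j Psi R) := by
  unfold PhiC
  apply Sys.TF.comp (f := fun s => alt R (fun T => (2 : ℕ) ^ (j - R.card) • Psi T s) ∅) ?_ S.un
  apply tf_alt hS R ∅ (fun T s => (2 : ℕ) ^ (j - R.card) • Psi T s)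
  intro T hT
  rw [Finset.empty_union]
  exact (hf T hT).comp (fun x => (2 : ℕ) ^ (j - R.card) • x)

/-- H2: the cocycle relation of `Phi_R`. -/
theorem phiC_mul (hS : S.Ok) {W : Finset I} {j : ℕ} {chi0 : G → ZMod 2} {del : I → G → ZMod 2}
    {Psi : Finset I → G → V} (h : Star W j Psi)
    (hc : ∀ P, P ⊆ W → ∀ s t, Psi P (s * t) = Psi P s + tw (chiC chi0 del P) s (Psi P t))
    {R : Finset I} (hR : R ⊆ W) (hj : R.card ≤ j) (s t : G) :
    PhiC S j Psi R (s * t) = PhiC S j Psi R s +
      S.ac s (∑ T ∈ R.powerset, pdel del T s • PhiC S j Psi (R \ T) t) := by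
  apply hS.iota_inj
  rw [iota_phiC hS h hR hj]
  have h1 := alt_cocycle chi0 del (fun T g => (2 : ℕ) ^ (j - R.card) • Psi T g) s t R ∅
    (Finset.disjoint_empty_right _) (by
      intro T hT
      simp only [Finset.empty_union]
      rw [hc T (hT.trans hR) s t, smul_add, tw_nsmul])
  rw [h1, map_add, iota_phiC hS h hR hj]
  congr 1
  have h2 : (∑ T ∈ R.powerset, (2 ^ T.card * (pdel del T s).val) •
      alt (R \ T) (fun Q => (2 : ℕ) ^ (j - R.card) • Psi Q t) (∅ ∪ T)) =
      S.iota (∑ T ∈ R.powerset, pdel del T s • PhiC S j Psi (R \ T) t) := by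
    rw [map_sum]
    apply Finset.sum_congr rfl
    intro T hT
    have hTR : T ⊆ R := Finset.mem_powerset.1 hT
    have hcard : (R \ T).card = R.card - T.card := Finset.card_sdiff_of_subset hTR
    have hle : T.card ≤ R.card := Finset.card_le_card hTR
    rw [iota_smul, iota_phiC_pos hS h (Finset.sdiff_subset.trans hR) (hTR.trans hR)
      Finset.sdiff_disjoint (by omega) t, Finset.empty_union, mul_comm, mul_smul, ← alt_nsmul]
    congr 2
    funext Q
    rw [pow_smul_smul]
    congr 2
    omega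
  rw [h2]
  exact Sys.tw_iota hS _ _ _

end

end Pool.Agent.SmN
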