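import Pool.Agent.Lib.SmN.H.Defs

/-!
Project SMITH, block H, H1: the alternating sum of cocycles.
-/

set_option autoImplicit false

open Finset

namespace Pool.Agent.SmN

section

variable {G V I : Type*} [Group G] [AddCommGroup V] [DistribMulAction G V] [DecidableEq I]

private theorem H1_val_mul (a b : ZMod 2) : (a * b).val = a.val * b.val := by
  revert a b; decide

private theorem H1_tw_add (chi : G → ZMod 2) (chi' : G → ZMod 2) (a : ZMod 2) (s : G)
    (h : chi' s = chi s + a) (Q : V) : tw chi' s Q = sgn a • tw chi s Q := by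
  simp only [tw, h, sgn_add]
  rw [mul_comm, mul_smul]

/-- H1: the alternating sum of twisted translates over a face. -/
theorem alt_tw (chi0 : G → ZMod 2) (del : I → G → ZMod 2) (B : Finset I → V)
    (s : G) (U P : Finset I) (hUP : Disjoint U P) :
    alt U (fun Q => tw (chiC chi0 del Q) s (B Q)) P =
      tw (chiC chi0 del P) s (∑ T ∈ U.powerset,
        (2 ^ T.card * (pdel del T s).val) • alt (U \ T) B (P ∪ T)) := by
  induction U using Finset.induction_on generalizing P with
  | empty =>
    have hv : (1 : ZMod 2).val = 1 := rfl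
    simp [pdel_empty, hv]
  | insert i U hi ih =>
    have hiP : i ∉ P := fun h => (Finset.disjoint_left.1 hUP) (Finset.mem_insert_self i U) h
    have hUP' : Disjoint U P := hUP.mono_left (Finset.subset_insert i U)
    have hUP'' : Disjoint U (insert i P) := by
      rw [Finset.disjoint_insert_right]
      exact ⟨hi, hUP'⟩
    rw [alt_insert hi, ih P hUP', ih (insert i P) hUP'']
    have h5 : ∀ X : V, tw (chiC chi0 del (insert i P)) s X =
        tw (chiC chi0 del P) s (sgn (del i s) • X) := by
      intro X
      rw [tw_zsmul]
      exact H1_tw_add _ _ _ s (chiC_insert chi0 del hiP s) X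
    rw [h5]
    have h6 : (∑ T ∈ (insert i U).powerset, (2 ^ T.card * (pdel del T s).val) •
        alt (insert i U \ T) B (P ∪ T)) =
        (∑ T ∈ U.powerset, (2 ^ T.card * (pdel del T s).val) •
          alt (U \ T) B (P ∪ T)) -
        sgn (del i s) • (∑ T ∈ U.powerset, (2 ^ T.card * (pdel del T s).val) •
          alt (U \ T) B (insert i P ∪ T)) := by
      rw [Finset.sum_powerset_insert hi, Finset.smul_sum, ← Finset.sum_sub_distrib,
        ← Finset.sum_add_distrib]
      apply Finset.sum_congr rfl
      intro T hT
      have hTU : T ⊆ U := Finset.mem_powerset.1 hT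
      have hiT : i ∉ T := fun h => hi (hTU h)
      have e1 : insert i U \ T = insert i (U \ T) := Finset.insert_sdiff_of_notMem U hiT
      have e2 : insert i U \ insert i T = U \ T := by
        ext x
        simp only [Finset.mem_sdiff, Finset.mem_insert, not_or]
        constructor
        · rintro ⟨h7 | h7, h8, h9⟩
          · exact absurd h7 h8
          · exact ⟨h7, h9⟩
        · rintro ⟨h7, h8⟩
          exact ⟨Or.inr h7, fun h9 => hi (h9 ▸ h7), h8⟩
      have e3 : P ∪ insert i T = insert i P ∪ T := by
        rw [Finset.union_insert, Finset.insert_union]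
      have e4 : insert i (P ∪ T) = insert i P ∪ T := by rw [Finset.insert_union]
      have hiUT : i ∉ U \ T := fun h => hi (Finset.mem_sdiff.1 h).1
      rw [e1, e2, e3, alt_insert hiUT, e4, pdel_insert del hiT, Finset.card_insert_of_notMem hiT,
        H1_val_mul, pow_succ, sgn_eq_sub]
      generalize alt (U \ T) B (P ∪ T) = A
      generalize alt (U \ T) B (insert i P ∪ T) = C
      rw [← natCast_zsmul, ← natCast_zsmul, ← natCast_zsmul]
      push_cast
      module
    rw [h6]
    have h7 : ∀ X Y : V, tw (chiC chi0 del P) s (X - Y) =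
        tw (chiC chi0 del P) s X - tw (chiC chi0 del P) s Y := by
      intro X Y
      exact map_sub (twHom (chiC chi0 del P) s) X Y
    rw [h7]

/-- H1: the alternating sum of twisted cocycles over a face. -/
theorem alt_cocycle (chi0 : G → ZMod 2) (del : I → G → ZMod 2) (Psi : Finset I → G → V)
    (s t : G) (U P : Finset I) (hUP : Disjoint U P)
    (hc : ∀ T, T ⊆ U → Psi (P ∪ T) (s * t) =
      Psi (P ∪ T) s + tw (chiC chi0 del (P ∪ T)) s (Psi (P ∪ T) t)) :
    alt U (fun Q => Psi Q (s * t)) P = alt U (fun Q => Psi Q s) P +
      tw (chiC chi0 del P) s (∑ T ∈ U.powerset,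
        (2 ^ T.card * (pdel del T s).val) • alt (U \ T) (fun Q => Psi Q t) (P ∪ T)) := by
  rw [← alt_tw chi0 del (fun Q => Psi Q t) s U P hUP, ← alt_add]
  exact alt_congr hc

end

end Pool.Agent.SmN
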