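import Pool.Agent.Lib.SmN.H.Min
import Pool.Agent.Lib.SmN.G.CT

/-!
Project SMITH, block H: the local identity behind H3 and H4.

For a face `(U, P)` of dimension at least `j + 2` and every place `v` the sum over the vertices of the
local terms of the pairing equals the local symbols of GLOBAL cochains; the contribution of the local
lifts cancels by isotropy of the local Kummer groups.
-/

set_option autoImplicit false

open Finset

namespace Pool.Agent.SmN

section

variable {G V V1 Pl I : Type*} [Group G] [AddCommGroup V] [DistribMulAction G V] [DecidableEq I]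
  [AddCommGroup V1] [Module (ZMod 2) V1]
variable {S : Sys G V V1 Pl}

/-- The pairing at `v` as a homomorphism in the left variable. -/
def syL (S : Sys G V V1 Pl) (v : Pl) (y : V1 × V1) : V1 × V1 →+ ZMod 2 where
  toFun := fun x => S.sy v x y
  map_zero' := Sys.sy_zero_left v y
  map_add' := fun a b => Sys.sy_add_left v a b y

/-- The pairing at `v` as a homomorphism in the right variable. -/
def syR (S : Sys G V V1 Pl) (v : Pl) (x : V1 × V1) : V1 × V1 →+ ZMod 2 where
  toFun := fun y => S.sy v x y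
  map_zero' := Sys.sy_zero_right v x
  map_add' := fun a b => Sys.sy_add_right v x a b

private theorem Face_two (m : V1 × V1) : m + m = 0 :=
  Prod.ext (V1_add_self _) (V1_add_self _)

theorem alt_V1 (U P : Finset I) (x : Finset I → V1 × V1) :
    alt U x P = ∑ T ∈ U.powerset, x (P ∪ T) :=
  alt_eq_sum_of_two Face_two U x P

omit [Group G] in
/-- The local difference between `bC` at two vertices. -/
theorem bC_union (b0 : G → V1) (bet : I → G → V1) {U P T : Finset I}
    (hUP : Disjoint U P) (hT : T ⊆ U) (s : G) :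
    bC b0 bet (P ∪ T) s = bC b0 bet (P ∪ U) s + ∑ i ∈ U \ T, bet i s := by
  unfold bC
  have h1 : P ∪ U = (P ∪ T) ∪ (U \ T) := by
    rw [Finset.union_assoc, Finset.union_sdiff_of_subset hT]
  have h2 : Disjoint (P ∪ T) (U \ T) := by
    rw [Finset.disjoint_left]
    intro x hx hx'
    obtain ⟨h3, h4⟩ := Finset.mem_sdiff.1 hx'
    rcases Finset.mem_union.1 hx with h | h
    · exact (Finset.disjoint_left.1 hUP) h3 h
    · exact h4 h
  rw [h1, Finset.sum_union h2, add_assoc, add_assoc, V1_add_self, add_zero]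

/-- Abel summation. -/
theorem face_abel (v : Pl) (b0 : G → V1) (bet : I → G → V1) {U P : Finset I}
    (hUP : Disjoint U P) (x : Finset I → V1 × V1) :
    ∑ T ∈ U.powerset, S.sy v (x (P ∪ T)) (S.loc v (bC b0 bet (P ∪ T))) =
      S.sy v (alt U x P) (S.loc v (bC b0 bet (P ∪ U))) +
      ∑ i ∈ U, S.sy v (alt (U.erase i) x P) (S.loc v (bet i)) := by
  have h1 : ∀ T ∈ U.powerset, S.sy v (x (P ∪ T)) (S.loc v (bC b0 bet (P ∪ T))) =
      S.sy v (x (P ∪ T)) (S.loc v (bC b0 bet (P ∪ U))) +
      ∑ i ∈ U, if i ∈ T then 0 else S.sy v (x (P ∪ T)) (S.loc v (bet i)) := by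
    intro T hT
    have hTU : T ⊆ U := Finset.mem_powerset.1 hT
    have h2 : S.loc v (bC b0 bet (P ∪ T)) = S.loc v (bC b0 bet (P ∪ U)) +
        ∑ i ∈ U \ T, S.loc v (bet i) := by
      apply Prod.ext
      · rw [Prod.fst_add, Prod.fst_sum]
        exact bC_union b0 bet hUP hTU _
      · rw [Prod.snd_add, Prod.snd_sum]
        exact bC_union b0 bet hUP hTU _
    rw [h2]
    have h3 : S.sy v (x (P ∪ T)) (∑ i ∈ U \ T, S.loc v (bet i)) =
        ∑ i ∈ U \ T, S.sy v (x (P ∪ T)) (S.loc v (bet i)) :=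
      map_sum (syR S v (x (P ∪ T))) _ _
    rw [Sys.sy_add_right, h3, Finset.sdiff_eq_filter, Finset.sum_filter]
    congr 1
    apply Finset.sum_congr rfl
    intro i _
    by_cases hi : i ∈ T <;> simp [hi]
  rw [Finset.sum_congr rfl h1, Finset.sum_add_distrib]
  congr 1
  · rw [alt_V1]
    exact (map_sum (syL S v (S.loc v (bC b0 bet (P ∪ U)))) _ _).symm
  · rw [Finset.sum_comm]
    apply Finset.sum_congr rfl
    intro i hi
    rw [alt_V1]
    have h4 : S.sy v (∑ T ∈ (U.erase i).powerset, x (P ∪ T)) (S.loc v (bet i)) =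
        ∑ T ∈ (U.erase i).powerset, S.sy v (x (P ∪ T)) (S.loc v (bet i)) :=
      map_sum (syL S v (S.loc v (bet i))) _ _
    rw [h4]
    symm
    apply Finset.sum_subset_zero_on_sdiff
    · exact Finset.powerset_mono.2 (Finset.erase_subset i U)
    · intro T hT
      obtain ⟨h5, h6⟩ := Finset.mem_sdiff.1 hT
      have hiT : i ∈ T := by
        by_contra hn
        apply h6
        rw [Finset.mem_powerset]
        intro y hy
        rw [Finset.mem_erase]
        exact ⟨fun h => hn (h ▸ hy), Finset.mem_powerset.1 h5 hy⟩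
      simp [hiT]
    · intro T hT
      have hiT : i ∉ T := fun h => (Finset.notMem_erase i U) (Finset.mem_powerset.1 hT h)
      simp [hiT]

/-- The global cochain of a face. -/
noncomputable def GC (S : Sys G V V1 Pl) (hat : Finset I → G → V) (R P : Finset I) (s : G) : V1 :=
  S.un (alt R (fun X => hat X s) P)

/-- The pair of values of the alternating sum of the local lifts. -/
noncomputable def yC (S : Sys G V V1 Pl) (chi0 : G → ZMod 2) (del : I → G → ZMod 2)
    (Q : Finset I → Pl → V) (v : Pl) (R P : Finset I) : V1 × V1 :=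
  (S.un (alt R (fun X => dl (chiC chi0 del X) (Q X v) (S.sg v)) P),
    S.un (alt R (fun X => dl (chiC chi0 del X) (Q X v) (S.phi v)) P))

section local_

variable {chi0 : G → ZMod 2} {del : I → G → ZMod 2} {j : ℕ} {W : Finset I}
  {Psi hat : Finset I → G → V} {Q : Finset I → Pl → V}

theorem two_hat (hst : Star W j Psi)
    (hd : ∀ X, X ⊆ W → S.LiftData (chiC chi0 del X) (Psi X) (hat X) (Q X)) {R P : Finset I}
    (hR : R ⊆ W) (hP : P ⊆ W) (hRP : Disjoint R P) (hj : j + 1 ≤ R.card) (s : G) :
    (2 : ℕ) • alt R (fun X => hat X s) P = 0 := by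
  rw [← alt_nsmul]
  have h1 := hst R P hR hP hRP 0 (by omega) s
  rw [← h1]
  apply alt_congr
  intro T hT
  rw [(hd _ (Finset.union_subset hP (hT.trans hR))).two, pow_zero, one_smul]

theorem two_q (hst : Star W j Psi)
    (hd : ∀ X, X ⊆ W → S.LiftData (chiC chi0 del X) (Psi X) (hat X) (Q X)) {R P : Finset I}
    (hR : R ⊆ W) (hP : P ⊆ W) (hRP : Disjoint R P) (hj : j + 1 ≤ R.card) (v : Pl) {s : G}
    (hs : s ∈ S.D v) :
    (2 : ℕ) • alt R (fun X => dl (chiC chi0 del X) (Q X v) s) P = 0 := by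
  rw [← alt_nsmul]
  have h1 := hst R P hR hP hRP 0 (by omega) s
  rw [← h1]
  apply alt_congr
  intro T hT
  rw [← (hd _ (Finset.union_subset hP (hT.trans hR))).loc v s hs, pow_zero, one_smul]

/-- The alternating sum of the local differences. -/
theorem alt_xi (hS : S.Ok) (hst : Star W j Psi)
    (hd : ∀ X, X ⊆ W → S.LiftData (chiC chi0 del X) (Psi X) (hat X) (Q X)) {R P : Finset I}
    (hR : R ⊆ W) (hP : P ⊆ W) (hRP : Disjoint R P) (hj : j + 1 ≤ R.card) (v : Pl) :
    alt R (fun X => S.xi (chiC chi0 del X) (hat X) (Q X) v) P =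
      S.loc v (GC S hat R P) + yC S chi0 del Q v R P := by
  have key1 : S.iota (alt R (fun X => S.xi (chiC chi0 del X) (hat X) (Q X) v) P).1 =
      alt R (fun X => hat X (S.sg v)) P -
        alt R (fun X => dl (chiC chi0 del X) (Q X v) (S.sg v)) P := by
    have h1 := alt_map (AddMonoidHom.fst V1 V1) R
      (fun X => S.xi (chiC chi0 del X) (hat X) (Q X) v) P
    have h2 : (alt R (fun X => S.xi (chiC chi0 del X) (hat X) (Q X) v) P).1 =
        alt R (fun X => (S.xi (chiC chi0 del X) (hat X) (Q X) v).1) P := h1.symm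
    rw [h2, ← alt_map, ← alt_sub]
    apply alt_congr
    intro T hT
    exact (hd _ (Finset.union_subset hP (hT.trans hR))).iota_xi1 hS v
  have key2 : S.iota (alt R (fun X => S.xi (chiC chi0 del X) (hat X) (Q X) v) P).2 =
      alt R (fun X => hat X (S.phi v)) P -
        alt R (fun X => dl (chiC chi0 del X) (Q X v) (S.phi v)) P := by
    have h1 := alt_map (AddMonoidHom.snd V1 V1) R
      (fun X => S.xi (chiC chi0 del X) (hat X) (Q X) v) P
    have h2 : (alt R (fun X => S.xi (chiC chi0 del X) (hat X) (Q X) v) P).2 =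
        alt R (fun X => (S.xi (chiC chi0 del X) (hat X) (Q X) v).2) P := h1.symm
    rw [h2, ← alt_map, ← alt_sub]
    apply alt_congr
    intro T hT
    exact (hd _ (Finset.union_subset hP (hT.trans hR))).iota_xi2 hS v
  have h2a := two_hat hst hd hR hP hRP hj (S.sg v)
  have h2b := two_hat hst hd hR hP hRP hj (S.phi v)
  have h2c := two_q hst hd hR hP hRP hj v (hS.sg_mem v)
  have h2d := two_q hst hd hR hP hRP hj v (hS.phi_mem v)
  apply Prod.ext
  · apply hS.iota_inj
    rw [key1, Prod.fst_add, map_add]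
    change _ = S.iota (S.un (alt R (fun X => hat X (S.sg v)) P)) +
      S.iota (S.un (alt R (fun X => dl (chiC chi0 del X) (Q X v) (S.sg v)) P))
    rw [Sys.iota_un hS h2a, Sys.iota_un hS h2c, sub_eq_add_neg, Sys.neg_of_two h2c]
  · apply hS.iota_inj
    rw [key2, Prod.snd_add, map_add]
    change _ = S.iota (S.un (alt R (fun X => hat X (S.phi v)) P)) +
      S.iota (S.un (alt R (fun X => dl (chiC chi0 del X) (Q X v) (S.phi v)) P))
    rw [Sys.iota_un hS h2b, Sys.iota_un hS h2d, sub_eq_add_neg, Sys.neg_of_two h2d]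

/-- If the twists agree on `D v` along a face then the local pair lies in the Kummer group. -/
theorem yC_mem (hS : S.Ok) (hst : Star W j Psi)
    (hd : ∀ X, X ⊆ W → S.LiftData (chiC chi0 del X) (Psi X) (hat X) (Q X)) {R P : Finset I}
    (hR : R ⊆ W) (hP : P ⊆ W) (hRP : Disjoint R P) (hj : j + 1 ≤ R.card) (v : Pl)
    (hdel : ∀ l ∈ R, ∀ s ∈ S.D v, del l s = 0) {X : Finset I} (hX1 : P ⊆ X) (hX2 : X ⊆ P ∪ R) :
    yC S chi0 del Q v R P ∈ S.Wl (chiC chi0 del X) v := by
  have hag : ∀ T, T ⊆ R → ∀ s ∈ S.D v, chiC chi0 del (P ∪ T) s = chiC chi0 del X s := by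
    intro T hT s hs
    have h0 : ∀ Y, P ⊆ Y → Y ⊆ P ∪ R → chiC chi0 del Y s = chiC chi0 del P s := by
      intro Y hY1 hY2
      unfold chiC
      congr 1
      symm
      apply Finset.sum_subset hY1
      intro l hl hlP
      rcases Finset.mem_union.1 (hY2 hl) with h | h
      · exact absurd h hlP
      · exact hdel l h s hs
    rw [h0 (P ∪ T) Finset.subset_union_left (Finset.union_subset_union_right hT),
      h0 X hX1 hX2]
  have hq : ∀ s ∈ S.D v, alt R (fun X => dl (chiC chi0 del X) (Q X v) s) P =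
      dl (chiC chi0 del X) (alt R (fun X => Q X v) P) s := by
    intro s hs
    have h1 := alt_map (dlHom (chiC chi0 del X) s) R (fun X => Q X v) P
    simp only [dlHom_apply] at h1
    rw [← h1]
    apply alt_congr
    intro T hT
    exact dl_congr (hag T hT s hs) _
  refine ⟨alt R (fun X => Q X v) P, fun s hs => ?_, ?_, ?_⟩
  · rw [← hq s hs]
    exact two_q hst hd hR hP hRP hj v hs
  · rw [← hq _ (hS.sg_mem v)]
    exact (Sys.iota_un hS (two_q hst hd hR hP hRP hj v (hS.sg_mem v))).symm
  · rw [← hq _ (hS.phi_mem v)]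
    exact (Sys.iota_un hS (two_q hst hd hR hP hRP hj v (hS.phi_mem v))).symm

/-- At a good place where all twists are unramified the local pair is unramified. -/
theorem yC_unr (hS : S.Ok) {R P : Finset I} {v : Pl} (hv : v ∈ S.good)
    (hchi : ∀ T, T ⊆ R → chiC chi0 del (P ∪ T) (S.sg v) = 0) :
    (yC S chi0 del Q v R P).1 = 0 := by
  change S.un (alt R (fun X => dl (chiC chi0 del X) (Q X v) (S.sg v)) P) = 0
  have : alt R (fun X => dl (chiC chi0 del X) (Q X v) (S.sg v)) P =
      alt R (fun _ => (0 : V)) P := by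
    apply alt_congr
    intro T hT
    exact Sys.dl_sg_zero hS hv (hchi T hT) _
  rw [this, alt_zero]
  exact Sys.un_zero hS

/-- The kinds of places, relative to a nonempty set of directions. -/
theorem cube_cases (hS : S.Ok) {pl : I → Bool → Pl} (hC : CubeOk S chi0 del pl)
    {bet : I → G → V1} (hB : BetOk S chi0 del pl bet) {U : Finset I}
    (hU : U.Nonempty) (v : Pl) :
    (∃ i ∈ U, (∀ l ∈ U, l ≠ i → ∀ s ∈ S.D v, del l s = 0) ∧
      ∀ l ∈ U, l ≠ i → S.loc v (bet l) = 0) ∨
    ((∀ l, ∀ s ∈ S.D v, del l s = 0) ∧ ∀ l, ∃ z, S.loc v (bet l) = S.cob v z) ∨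
    (v ∈ S.good ∧ chi0 (S.sg v) = 0 ∧ (∀ i, del i (S.sg v) = 0) ∧
      ∀ i, bet i (S.sg v) = 0) := by
  by_cases hv : ∃ i e, v = pl i e
  · left
    obtain ⟨i, e, rfl⟩ := hv
    have hz : ∀ l, l ≠ i → S.loc (pl i e) (bet l) = 0 := fun l hl =>
      Prod.ext (hB.D i e l hl _ (hS.sg_mem _)) (hB.D i e l hl _ (hS.phi_mem _))
    by_cases hi : i ∈ U
    · exact ⟨i, hi, fun l _ hl s hs => hC.del_D i e l hl s hs, fun l _ hl => hz l hl⟩
    · obtain ⟨i', hi'⟩ := hU
      exact ⟨i', hi', fun l hl _ s hs => hC.del_D i e l (fun h => hi (h ▸ hl)) s hs,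
        fun l hl _ => hz l (fun h => hi (h ▸ hl))⟩
  · push Not at hv
    right
    rcases hB.other v hv with h | h
    · left
      refine ⟨h.1, fun l => ?_⟩
      obtain ⟨z, hz⟩ := h.2 l
      exact ⟨z, Prod.ext (hz _ (hS.sg_mem v)) (hz _ (hS.phi_mem v))⟩
    · exact Or.inr h

/-- The local identity. -/
theorem face_place (hS : S.Ok) {pl : I → Bool → Pl} (hC : CubeOk S chi0 del pl)
    {bet : I → G → V1} (hB : BetOk S chi0 del pl bet)
    (hst : Star W j Psi)
    (hd : ∀ X, X ⊆ W → S.LiftData (chiC chi0 del X) (Psi X) (hat X) (Q X)) {U P : Finset I}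
    (hU : U ⊆ W) (hP : P ⊆ W) (hUP : Disjoint U P) (hj : j + 2 ≤ U.card)
    (b0 : G → V1)
    (hb : ∀ X, X ⊆ W → S.IsSel1 (chiC chi0 del X) (bC b0 bet X)) (v : Pl) :
    ∑ T ∈ U.powerset, S.sy v (S.xi (chiC chi0 del (P ∪ T)) (hat (P ∪ T)) (Q (P ∪ T)) v)
        (S.loc v (bC b0 bet (P ∪ T))) =
      S.sy v (S.loc v (GC S hat U P)) (S.loc v (bC b0 bet (P ∪ U))) +
      ∑ i ∈ U, S.sy v (S.loc v (GC S hat (U.erase i) P)) (S.loc v (bet i)) := by
  have hchi : ∀ X, S.HomG (chiC chi0 del X) := chiC_hom hS hC.chi0_hom hC.del_hom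
  rw [face_abel (S := S) v b0 bet hUP
    (fun X => S.xi (chiC chi0 del X) (hat X) (Q X) v)]
  have hUe : ∀ i ∈ U, j + 1 ≤ (U.erase i).card := fun i hi => by
    rw [Finset.card_erase_of_mem hi]; omega
  have hUeW : ∀ i, U.erase i ⊆ W := fun i => (Finset.erase_subset i U).trans hU
  have hUeP : ∀ i, Disjoint (U.erase i) P := fun i => hUP.mono_left (Finset.erase_subset i U)
  rw [alt_xi hS hst hd hU hP hUP (by omega) v, Sys.sy_add_left]
  have h1 : ∀ i ∈ U, S.sy v (alt (U.erase i)
      (fun X => S.xi (chiC chi0 del X) (hat X) (Q X) v) P) (S.loc v (bet i)) =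
      S.sy v (S.loc v (GC S hat (U.erase i) P)) (S.loc v (bet i)) +
      S.sy v (yC S chi0 del Q v (U.erase i) P) (S.loc v (bet i)) := by
    intro i hi
    rw [alt_xi hS hst hd (hUeW i) hP (hUeP i) (hUe i hi) v, Sys.sy_add_left]
  rw [Finset.sum_congr rfl h1, Finset.sum_add_distrib]
  -- the case in which all twists agree except in the direction `i`
  have core : ∀ i ∈ U, (∀ l ∈ U, l ≠ i → ∀ s ∈ S.D v, del l s = 0) →
      (∀ l ∈ U, l ≠ i → S.sy v (yC S chi0 del Q v (U.erase l) P) (S.loc v (bet l)) = 0) →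
      S.sy v (yC S chi0 del Q v U P) (S.loc v (bC b0 bet (P ∪ U))) +
      ∑ i ∈ U, S.sy v (yC S chi0 del Q v (U.erase i) P) (S.loc v (bet i)) = 0 := by
    intro i hi hdel hzero
    have hPU : P ∪ U ⊆ W := Finset.union_subset hP hU
    have hiP : i ∉ P := fun h => (Finset.disjoint_left.1 hUP) hi h
    have hins : insert i P ⊆ W := Finset.insert_subset (hU hi) hP
    have hsum : ∑ l ∈ U, S.sy v (yC S chi0 del Q v (U.erase l) P)
        (S.loc v (bet l)) =
        S.sy v (yC S chi0 del Q v (U.erase i) P) (S.loc v (bet i)) := by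
      apply Finset.sum_eq_single i
      · intro l hl hli
        exact hzero l hl hli
      · intro hn
        exact absurd hi hn
    rw [hsum]
    have hdel' : ∀ l ∈ U.erase i, ∀ s ∈ S.D v, del l s = 0 := fun l hl s hs =>
      hdel l (Finset.mem_of_mem_erase hl) (Finset.ne_of_mem_erase hl) s hs
    have hdisj : Disjoint (U.erase i) (insert i P) := by
      rw [Finset.disjoint_insert_right]
      exact ⟨Finset.notMem_erase i U, hUeP i⟩
    -- u0, u1
    have hu : yC S chi0 del Q v U P =
        yC S chi0 del Q v (U.erase i) P + yC S chi0 del Q v (U.erase i) (insert i P) := by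
      apply Prod.ext
      · change S.un _ = S.un _ + S.un _
        rw [alt_of_mem hi, Sys.un_sub hS
          (two_q hst hd (hUeW i) hP (hUeP i) (hUe i hi) v (hS.sg_mem v))
          (two_q hst hd (hUeW i) hins hdisj (hUe i hi) v (hS.sg_mem v)), sub_eq_add_neg, V1_neg]
      · change S.un _ = S.un _ + S.un _
        rw [alt_of_mem hi, Sys.un_sub hS
          (two_q hst hd (hUeW i) hP (hUeP i) (hUe i hi) v (hS.phi_mem v))
          (two_q hst hd (hUeW i) hins hdisj (hUe i hi) v (hS.phi_mem v)), sub_eq_add_neg,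
          V1_neg]
    have hX0 : P ∪ U.erase i ⊆ W := Finset.union_subset hP (hUeW i)
    have hm0 : yC S chi0 del Q v (U.erase i) P ∈ S.Wl (chiC chi0 del (P ∪ U.erase i)) v :=
      yC_mem hS hst hd (hUeW i) hP (hUeP i) (hUe i hi) v hdel' Finset.subset_union_left
        (Finset.Subset.refl _)
    have hm1 : yC S chi0 del Q v (U.erase i) (insert i P) ∈ S.Wl (chiC chi0 del (P ∪ U)) v := by
      apply yC_mem hS hst hd (hUeW i) hins hdisj (hUe i hi) v hdel'
      · intro x hx
        rcases Finset.mem_insert.1 hx with rfl | h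
        · exact Finset.mem_union_right _ hi
        · exact Finset.mem_union_left _ h
      · intro x hx
        rcases Finset.mem_union.1 hx with h | h
        · exact Finset.mem_union_left _ (Finset.mem_insert_of_mem h)
        · by_cases hxi : x = i
          · subst hxi
            exact Finset.mem_union_left _ (Finset.mem_insert_self _ _)
          · exact Finset.mem_union_right _ (Finset.mem_erase.2 ⟨hxi, h⟩)
    have hb0 := (hb _ hX0).2 v
    have hb1 := (hb _ hPU).2 v
    have hbb : S.loc v (bC b0 bet (P ∪ U.erase i)) =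
        S.loc v (bC b0 bet (P ∪ U)) + S.loc v (bet i) := by
      have hsd : U \ U.erase i = {i} := by
        ext x
        simp only [Finset.mem_sdiff, Finset.mem_erase, Finset.mem_singleton]
        constructor
        · rintro ⟨h1, h2⟩
          by_contra hne
          exact h2 ⟨hne, h1⟩
        · rintro rfl
          exact ⟨hi, fun h => h.1 rfl⟩
      have h2 := fun s => bC_union b0 bet hUP (Finset.erase_subset i U) s
      apply Prod.ext
      · change bC b0 bet _ _ = bC b0 bet _ _ + bet i _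
        rw [h2, hsd, Finset.sum_singleton]
      · change bC b0 bet _ _ = bC b0 bet _ _ + bet i _
        rw [h2, hsd, Finset.sum_singleton]
    have e0 := hS.isot _ (hchi _) v _ hm0 _ hb0
    have e1 := hS.isot _ (hchi _) v _ hm1 _ hb1
    rw [hbb, Sys.sy_add_right] at e0
    rw [hu, Sys.sy_add_left, e1, add_zero]
    exact e0
  -- the local contribution
  have key : S.sy v (yC S chi0 del Q v U P) (S.loc v (bC b0 bet (P ∪ U))) +
      ∑ i ∈ U, S.sy v (yC S chi0 del Q v (U.erase i) P) (S.loc v (bet i)) = 0 := by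
    have hPU : P ∪ U ⊆ W := Finset.union_subset hP hU
    rcases cube_cases hS hC hB (Finset.card_pos.1 (by omega : 0 < U.card)) v with
      ⟨i, hi, hdel, hz⟩ | ⟨hdel, hz⟩ | ⟨hv, hc0, hd0, hb0⟩
    · -- a place of the cube
      refine core i hi hdel fun l hl hli => ?_
      rw [hz l hl hli, Sys.sy_zero_right]
    · -- all twists agree
      obtain ⟨i, hi⟩ := Finset.card_pos.1 (by omega : 0 < U.card)
      refine core i hi (fun l _ _ => hdel l) fun l hl _ => ?_
      obtain ⟨z, hz⟩ := hz l
      rw [hz]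
      apply hS.sy_cob
      apply Sys.Wl_sub_CP hS (hchi P) v
      exact yC_mem hS hst hd (hUeW l) hP (hUeP l) (hUe l hl) v (fun m _ => hdel m)
        (Finset.Subset.refl P) Finset.subset_union_left
    · -- everything unramified
      have hchi0 : ∀ X, chiC chi0 del X (S.sg v) = 0 := fun X => by
        unfold chiC
        rw [hc0, Finset.sum_eq_zero (fun i _ => hd0 i), add_zero]
      have hy : ∀ R, (yC S chi0 del Q v R P).1 = 0 := fun R =>
        yC_unr hS hv (fun T _ => hchi0 _)
      have hbu : (S.loc v (bC b0 bet (P ∪ U))).1 = 0 :=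
        (Sys.mem_Wl_good hS (hchi _) hv (hchi0 _) _).1 ((hb _ hPU).2 v)
      have e0 : S.sy v (yC S chi0 del Q v U P) (S.loc v (bC b0 bet (P ∪ U))) = 0 :=
        Sys.sy_unr_zero hS hv (hy U) hbu
      rw [e0, zero_add]
      apply Finset.sum_eq_zero
      intro i _
      exact Sys.sy_unr_zero hS hv (hy _) (hb0 i)
  calc _ = S.sy v (S.loc v (GC S hat U P)) (S.loc v (bC b0 bet (P ∪ U))) +
      ∑ i ∈ U, S.sy v (S.loc v (GC S hat (U.erase i) P)) (S.loc v (bet i)) +
      (S.sy v (yC S chi0 del Q v U P) (S.loc v (bC b0 bet (P ∪ U))) +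
      ∑ i ∈ U, S.sy v (yC S chi0 del Q v (U.erase i) P) (S.loc v (bet i))) := by
        ring
    _ = _ := by rw [key, add_zero]

end local_

end

end Pool.Agent.SmN
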