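import Pool.Agent.Lib.SmN.H.Min
import Pool.Agent.Lib.SmN.G.Unr

/-!
Project SMITH, block H, H7: vanishing of `Phi_R` on the decomposition groups of a direction.
-/

set_option autoImplicit false

open Finset

namespace Pool.Agent.SmN

section

variable {G V V1 Pl I : Type*} [Group G] [AddCommGroup V] [DistribMulAction G V] [DecidableEq I]
  [AddCommGroup V1] [Module (ZMod 2) V1]
variable {S : Sys G V V1 Pl}

/-- H7: if all vertices of a face which contain the prime `p = pl ib e` have the same value at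
`sg p`, then `Phi_R` vanishes on `D p`, for every set `R` of directions, `1 ≤ |R| ≤ j`, `ib ∉ R`.
The vertices used are `R' ` and `insert ib R'`, `R' ⊆ R`. -/
theorem phiC_zero_on_D (hS : S.Ok) {chi0 : G → ZMod 2} {del : I → G → ZMod 2}
    {pl : I → Bool → Pl} (hC : CubeOk S chi0 del pl) {W : Finset I} {j : ℕ}
    {Psi : Finset I → G → V} (hst : Star W j Psi)
    (hPsi : ∀ X, X ⊆ W → S.IsSel (chiC chi0 del X) j (Psi X)) {R : Finset I} (hR : R ⊆ W)
    (hR0 : R.Nonempty) (hj : R.card ≤ j) {ib : I} (hib : ib ∉ R) (hibW : ib ∈ W) (e : Bool)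
    {c : V} (hcol : ∀ T, T ⊆ R → Psi (if e then insert ib T else T) (S.sg (pl ib e)) = c) :
    ∀ s ∈ S.D (pl ib e), PhiC S j Psi R s = 0 := by
  intro s hs
  set P : Finset I := if e then {ib} else ∅ with hP
  have hPW : P ⊆ W := by
    rw [hP]
    cases e
    · exact Finset.empty_subset _
    · exact Finset.singleton_subset_iff.2 hibW
  have hRP : Disjoint R P := by
    rw [hP]
    cases e
    · exact Finset.disjoint_empty_right _
    · exact Finset.disjoint_singleton_right.2 hib
  have hPT : ∀ T, T ⊆ R → P ∪ T = if e then insert ib T else T := by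
    intro T _
    rw [hP]
    cases e
    · simp
    · simp
  apply hS.iota_inj
  rw [map_zero, iota_phiC_pos hS hst hR hPW hRP hj s]
  -- the twists agree on `D`
  set χ : G → ZMod 2 := chiC chi0 del P with hχ
  have hag : ∀ T, T ⊆ R → ∀ t ∈ S.D (pl ib e), chiC chi0 del (P ∪ T) t = χ t := by
    intro T hT t ht
    rw [hχ]
    unfold chiC
    congr 1
    symm
    apply Finset.sum_subset Finset.subset_union_left
    intro l hl hlP
    rcases Finset.mem_union.1 hl with h | h
    · exact absurd h hlP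
    · exact hC.del_D ib e l (fun h' => hib (h' ▸ hT h)) t ht
  have hχsg : χ (S.sg (pl ib e)) = 1 := by
    rw [hχ, hP]
    unfold chiC
    rw [hC.chi0_sg ib e]
    cases e
    · simp
    · simp [hC.del_sg ib true]
  -- local points
  have hQ : ∀ X, ∃ Q : V, X ⊆ W → ∀ t ∈ S.D (pl ib e), Psi X t = dl (chiC chi0 del X) Q t := by
    intro X
    by_cases hX : X ⊆ W
    · obtain ⟨Q, hQ⟩ := (hPsi X hX).loc (pl ib e)
      exact ⟨Q, fun _ => hQ⟩
    · exact ⟨0, fun h => absurd h hX⟩
  choose Q hQ using hQ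
  have hall : ∀ t ∈ S.D (pl ib e), alt R (fun T => (2 : ℕ) ^ (j - R.card) • Psi T t) P =
      dl χ (alt R (fun T => (2 : ℕ) ^ (j - R.card) • Q T) P) t := by
    intro t ht
    have h1 := alt_map (dlHom χ t) R (fun T => (2 : ℕ) ^ (j - R.card) • Q T) P
    simp only [dlHom_apply] at h1
    rw [← h1]
    apply alt_congr
    intro T hT
    rw [hQ _ (Finset.union_subset hPW (hT.trans hR)) t ht, dl_nsmul, dl_congr (hag T hT t ht)]
  rw [hall s hs]
  refine Sys.fill_zero hS (hC.good ib e) hχsg ?_ (Sys.ac_D hS (hC.good ib e) (hC.split ib e) s hs)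
  rw [← hall _ (hS.sg_mem _)]
  have hconst : alt R (fun T => (2 : ℕ) ^ (j - R.card) • Psi T (S.sg (pl ib e))) P =
      alt R (fun _ => (2 : ℕ) ^ (j - R.card) • c) P := by
    apply alt_congr
    intro T hT
    rw [hPT T hT, hcol T hT]
  rw [hconst, alt_const hR0]

end

end Pool.Agent.SmN
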