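import Pool.Agent.Lib.SmN.H.Min
import Pool.Agent.Lib.SmN.G.CT

/-!
Project SMITH, block H: the functions `Th` (relation, existence).
-/

set_option autoImplicit false

open Finset

namespace Pool.Agent.SmN

section

variable {G V V1 Pl I : Type*} [Group G] [AddCommGroup V] [DistribMulAction G V] [DecidableEq I]
  [AddCommGroup V1] [Module (ZMod 2) V1]

/-- The relation of `Th : G → V1` for the face with directions `W`, `|W| = j + 1`. -/
def ThRel (S : Sys G V V1 Pl) (j : ℕ) (del : I → G → ZMod 2) (Psi : Finset I → G → V)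
    (W : Finset I) (Th : G → V1) : Prop :=
  ∀ s t, Th (s * t) = Th s + S.ac s (Th t +
    ∑ T ∈ W.powerset.erase ∅, pdel del T s • PhiC S j Psi (W \ T) t)

variable {S : Sys G V V1 Pl}

omit [Group G] [DistribMulAction G V] in
/-- The alternating sum of lifts over a face of dimension at least `j + 1` is killed by `2`. -/
theorem two_alt_hat {W : Finset I} {j : ℕ} {Psi hat : Finset I → G → V} (h : Star W j Psi)
    {U P : Finset I} (hU : U ⊆ W) (hP : P ⊆ W) (hUP : Disjoint U P) (hj : j + 1 ≤ U.card)
    (h2 : ∀ T, T ⊆ W → ∀ s, (2 : ℕ) • hat T s = Psi T s) (s : G) :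
    (2 : ℕ) • alt U (fun T => hat T s) P = 0 := by
  rw [← alt_nsmul]
  have h1 := h U P hU hP hUP 0 (by omega) s
  rw [← h1]
  apply alt_congr
  intro T hT
  rw [h2 _ (Finset.union_subset hP (hT.trans hU)), pow_zero, one_smul]

/-- The alternating sum of the lifts over the face `W`, `|W| = j + 1`, satisfies the relation. -/
theorem om_rel (hS : S.Ok) {W : Finset I} {j : ℕ} (hW : W.card = j + 1)
    {chi0 : G → ZMod 2} {del : I → G → ZMod 2} {Psi hat : Finset I → G → V} (h : Star W j Psi)
    (hcoc : ∀ T, T ⊆ W → ∀ s t,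
      hat T (s * t) = hat T s + tw (chiC chi0 del T) s (hat T t))
    (h2 : ∀ T, T ⊆ W → ∀ s, (2 : ℕ) • hat T s = Psi T s) :
    ThRel S j del Psi W (fun s => S.un (alt W (fun T => hat T s) ∅)) := by
  have hiota : ∀ s, S.iota (S.un (alt W (fun T => hat T s) ∅)) = alt W (fun T => hat T s) ∅ :=
    fun s => Sys.iota_un hS (two_alt_hat h (Finset.Subset.refl W) (Finset.empty_subset _)
      (Finset.disjoint_empty_right _) (by omega) h2 s)
  intro s t
  apply hS.iota_inj
  rw [hiota, map_add, hiota]
  have h1 := alt_cocycle chi0 del hat s t W ∅ (Finset.disjoint_empty_right _) (by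
      intro T hT
      simp only [Finset.empty_union]
      exact hcoc T hT s t)
  rw [h1]
  congr 1
  have h3 : (∑ T ∈ W.powerset, (2 ^ T.card * (pdel del T s).val) •
      alt (W \ T) (fun Q => hat Q t) (∅ ∪ T)) =
      S.iota (S.un (alt W (fun T => hat T t) ∅)) +
      S.iota (∑ T ∈ W.powerset.erase ∅, pdel del T s • PhiC S j Psi (W \ T) t) := by
    rw [map_sum, hiota, ← Finset.add_sum_erase W.powerset _ (Finset.empty_mem_powerset W)]
    congr 1
    · simp [pdel_empty, show (1 : ZMod 2).val = 1 from rfl]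
    · apply Finset.sum_congr rfl
      intro T hT
      obtain ⟨hT0, hT1⟩ := Finset.mem_erase.1 hT
      have hTW : T ⊆ W := Finset.mem_powerset.1 hT1
      have hTpos : 0 < T.card := Finset.card_pos.2 (Finset.nonempty_iff_ne_empty.2 hT0)
      have hcard : (W \ T).card = W.card - T.card := Finset.card_sdiff_of_subset hTW
      have hle : T.card ≤ W.card := Finset.card_le_card hTW
      rw [iota_smul, iota_phiC_pos hS h Finset.sdiff_subset hTW Finset.sdiff_disjoint
        (by omega) t, Finset.empty_union, mul_comm, mul_smul, ← alt_nsmul]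
      congr 1
      apply alt_congr
      intro Q hQ
      have hQW : T ∪ Q ⊆ W := Finset.union_subset hTW (hQ.trans Finset.sdiff_subset)
      rw [← h2 _ hQW t, smul_smul, ← pow_succ]
      congr 2
      omega
  rw [h3, ← map_add, Sys.tw_iota hS]

/-- Two solutions of the relation differ by a cocycle. -/
theorem ThRel.sub_coc {W : Finset I} {j : ℕ} {del : I → G → ZMod 2}
    {Psi : Finset I → G → V} {Th Th' : G → V1} (h : ThRel S j del Psi W Th)
    (h' : ThRel S j del Psi W Th') (s t : G) :
    Th (s * t) - Th' (s * t) = (Th s - Th' s) + S.ac s (Th t - Th' t) := by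
  rw [h s t, h' s t, map_add, map_add, map_sub]; abel

/-- Adding a cocycle. -/
theorem ThRel.add_coc {W : Finset I} {j : ℕ} {del : I → G → ZMod 2}
    {Psi : Finset I → G → V} {Th c : G → V1} (h : ThRel S j del Psi W Th)
    (hc : ∀ s t, c (s * t) = c s + S.ac s (c t)) : ThRel S j del Psi W (fun s => Th s - c s) := by
  intro s t
  simp only [h s t, hc s t, map_add, map_sub]; abel

/-- Where all `del i` vanish a solution of the relation is a cocycle. -/
theorem ThRel.cp {W : Finset I} {j : ℕ} {del : I → G → ZMod 2}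
    {Psi : Finset I → G → V} {Th : G → V1} (h : ThRel S j del Psi W Th) (htf : S.TF Th) {v : Pl}
    (hdel : ∀ i, ∀ s ∈ S.D v, del i s = 0) : S.loc v Th ∈ S.CP v := by
  refine ⟨Th, htf.on _, fun s hs t _ => ?_, rfl⟩
  rw [h s t]
  congr 2
  have : ∑ T ∈ W.powerset.erase ∅, pdel del T s • PhiC S j Psi (W \ T) t = 0 := by
    apply Finset.sum_eq_zero
    intro T hT
    obtain ⟨hT0, _⟩ := Finset.mem_erase.1 hT
    obtain ⟨i, hi⟩ := Finset.nonempty_iff_ne_empty.2 hT0
    have : pdel del T s = 0 := Finset.prod_eq_zero hi (hdel i s hs)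
    rw [this, zero_smul]
  rw [this, add_zero]

/-- At the good places the value of the alternating sum of the lifts at the tame generator is
fixed by Frobenius. -/
theorem om_fix (hS : S.Ok) {W : Finset I} {j : ℕ} (hW : W.card = j + 1)
    {chi0 : G → ZMod 2} {del : I → G → ZMod 2} {pl : I → Bool → Pl} (hC : CubeOk S chi0 del pl)
    {Psi hat : Finset I → G → V} {Q : Finset I → Pl → V} (h : Star W j Psi)
    (hd : ∀ X, X ⊆ W → S.LiftData (chiC chi0 del X) (Psi X) (hat X) (Q X))
    {v : Pl} (hv : v ∈ S.good) :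
    S.ac (S.phi v) (S.un (alt W (fun T => hat T (S.sg v)) ∅)) =
      S.un (alt W (fun T => hat T (S.sg v)) ∅) := by
  have h2 : ∀ T, T ⊆ W → ∀ s, (2 : ℕ) • hat T s = Psi T s := fun T hT => (hd T hT).two
  have hcoc : ∀ T, T ⊆ W → ∀ s t,
      hat T (s * t) = hat T s + tw (chiC chi0 del T) s (hat T t) := fun T hT => (hd T hT).coc
  have hrel : ThRel S j del Psi W (fun s => S.un (alt W (fun T => hat T s) ∅)) :=
    om_rel hS hW h hcoc h2
  by_cases hpl : ∃ i e, v = pl i e
  · obtain ⟨i, e, rfl⟩ := hpl
    rw [hC.split i e]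
    rfl
  · push Not at hpl
    rcases hC.other v hpl with h0 | ⟨_, hc0, hd0⟩
    · have htf : S.TF (fun s => S.un (alt W (fun T => hat T s) ∅)) := by
        apply Sys.TF.comp (f := fun s => alt W (fun T => hat T s) ∅) ?_ S.un
        apply tf_alt hS W ∅ hat
        intro T hT
        rw [Finset.empty_union]
        exact (hd T hT).tf
      exact Sys.cp_fix hS hv (hrel.cp htf h0)
    · have hchi0 : ∀ X, chiC chi0 del X (S.sg v) = 0 := fun X => by
        unfold chiC
        rw [hc0, Finset.sum_eq_zero (fun i _ => hd0 i), add_zero]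
      have e1 : S.un (alt W (fun T => hat T (S.sg v)) ∅) =
          alt W (fun X => (S.xi (chiC chi0 del X) (hat X) (Q X) v).1) ∅ := by
        apply hS.iota_inj
        rw [Sys.iota_un hS (two_alt_hat h (Finset.Subset.refl W) (Finset.empty_subset _)
          (Finset.disjoint_empty_right _) (by omega) h2 _), ← alt_map]
        apply alt_congr
        intro T hT
        rw [Finset.empty_union, (hd T hT).iota_xi1 hS v, Sys.dl_sg_zero hS hv (hchi0 T), sub_zero]
      rw [e1]
      have e2 := alt_map ((S.ac (S.phi v)).toLinearMap.toAddMonoidHom) W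
        (fun X => (S.xi (chiC chi0 del X) (hat X) (Q X) v).1) ∅
      change _ = S.ac (S.phi v) _ at e2
      rw [← e2]
      apply alt_congr
      intro T hT
      rw [Finset.empty_union]
      exact Sys.cp_fix hS hv ((hd T hT).xi_CP hS (chiC_hom hS hC.chi0_hom hC.del_hom T) v)

/-- Existence of `Th`, unramified at all good places. -/
theorem exists_Th (hS : S.Ok) {W : Finset I} {j : ℕ} (hW : W.card = j + 1)
    {chi0 : G → ZMod 2} {del : I → G → ZMod 2} {pl : I → Bool → Pl} (hC : CubeOk S chi0 del pl)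
    {Psi hat : Finset I → G → V} {Q : Finset I → Pl → V} (h : Star W j Psi)
    (hd : ∀ X, X ⊆ W → S.LiftData (chiC chi0 del X) (Psi X) (hat X) (Q X)) :
    ∃ Th : G → V1, S.TF Th ∧ ThRel S j del Psi W Th ∧ ∀ v ∈ S.good, Th (S.sg v) = 0 := by
  classical
  have h2 : ∀ T, T ⊆ W → ∀ s, (2 : ℕ) • hat T s = Psi T s := fun T hT => (hd T hT).two
  have hcoc : ∀ T, T ⊆ W → ∀ s t,
      hat T (s * t) = hat T s + tw (chiC chi0 del T) s (hat T t) := fun T hT => (hd T hT).coc
  set Om : G → V1 := fun s => S.un (alt W (fun T => hat T s) ∅) with hOm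
  have hrel : ThRel S j del Psi W Om := om_rel hS hW h hcoc h2
  have htfOm : S.TF Om := by
    apply Sys.TF.comp (f := fun s => alt W (fun T => hat T s) ∅) ?_ S.un
    apply tf_alt hS W ∅ hat
    intro T hT
    rw [Finset.empty_union]
    exact (hd T hT).tf
  have hone : Om 1 = 0 := by
    have e1 : alt W (fun T => hat T (1 : G)) ∅ = alt W (fun _ => (0 : V)) ∅ := by
      apply alt_congr
      intro T hT
      rw [Finset.empty_union]
      exact coc_one (chiC_hom hS hC.chi0_hom hC.del_hom T).2 (hcoc T hT)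
    change S.un (alt W (fun T => hat T (1 : G)) ∅) = 0
    rw [e1, alt_zero]
    exact Sys.un_zero hS
  have hfin : {v | Om (S.sg v) ≠ 0}.Finite := by
    obtain ⟨N, hN, h3⟩ := htfOm
    refine (hS.unr N hN).subset fun v hv hm => hv ?_
    have := h3 1 _ hm
    rwa [one_mul, hone] at this
  obtain ⟨c, hc, hcv⟩ := hS.corr (fun v => Om (S.sg v)) hfin
    (fun v hv => om_fix hS hW hC h hd hv)
  refine ⟨fun s => Om s - c s, htfOm.comp₂ hS hc.1 (fun a b => a - b), hrel.add_coc hc.2, ?_⟩
  intro v hv
  change Om (S.sg v) - c (S.sg v) = 0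
  rw [hcv v hv, sub_self]

end

end Pool.Agent.SmN
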